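import Mathlib

/-!
Definitions: the chromatic threshold in `G(n,p)`, the 2-density, cloud-forest graphs.
-/

namespace Pool.Agent.H279Z.CF

open Filter Topology Classical

/-- The probability that `G(n,q)` (vertex set `Fin n`) has the property `P`. -/
noncomputable def gnpProb (n : ℕ) (q : ℝ) (P : SimpleGraph (Fin n) → Prop) : ℝ :=
  ∑ Γ : SimpleGraph (Fin n),
    if P Γ then q ^ Γ.edgeSet.ncard * (1 - q) ^ (n.choose 2 - Γ.edgeSet.ncard) else 0

/-- For some constant `C`, with high probability every `H`-free spanning subgraph `G` of `G(n,p)`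
with minimum degree at least `d p n` is `C`-colourable. -/
def BoundedChrom {V : Type} (H : SimpleGraph V) (p : ℕ → ℝ) (d : ℝ) : Prop :=
  ∃ C : ℕ, Tendsto (fun n : ℕ => gnpProb n (p n) (fun Γ =>
    ∀ G : SimpleGraph (Fin n), G ≤ Γ → ¬ H.IsContained G →
      (∀ v, d * p n * n ≤ ((G.neighborSet v).ncard : ℝ)) → G.Colorable C)) atTop (𝓝 1)

/-- The chromatic threshold of `H` with respect to `p`. -/
noncomputable def chromThreshold {V : Type} (H : SimpleGraph V) (p : ℕ → ℝ) : ℝ :=
  sInf {d : ℝ | 0 < d ∧ BoundedChrom H p d}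

/-- The 2-density: the maximum of `(e(F) - 1) / (v(F) - 2)` over subgraphs with `v(F) ≥ 3`. -/
noncomputable def twoDensity {V : Type} (H : SimpleGraph V) : ℝ :=
  sSup {x : ℝ | ∃ F : H.Subgraph, 3 ≤ F.verts.ncard ∧
    x = ((F.edgeSet.ncard : ℝ) - 1) / ((F.verts.ncard : ℝ) - 2)}

/-- The degree of `v` in the graph induced on the complement of `I`. -/
noncomputable def degOutside {V : Type} (H : SimpleGraph V) (I : Set V) (v : V) : ℕ :=
  {w | w ∉ I ∧ H.Adj v w}.ncard

/-- `I` is a cloud of `H`: it is independent, its complement induces a forest `F`, every edge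
between `I` and `F` ends at a leaf or an isolated vertex of `F`, and no two adjacent leaves of `F`
both have neighbours in `I`. -/
def IsCloud {V : Type} (H : SimpleGraph V) (I : Set V) : Prop :=
  H.IsIndepSet I ∧ (H.induce Iᶜ).IsAcyclic ∧
  (∀ u ∈ I, ∀ v ∉ I, H.Adj u v → degOutside H I v ≤ 1) ∧
  ∀ v ∉ I, ∀ w ∉ I, H.Adj v w → degOutside H I v = 1 → degOutside H I w = 1 →
    ¬ ((∃ u ∈ I, H.Adj u v) ∧ ∃ u ∈ I, H.Adj u w)

/-- `H` has a cloud. -/
def IsCloudForest {V : Type} (H : SimpleGraph V) : Prop := ∃ I, IsCloud H I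

/-- `H` has a cloud containing at least two vertices of every odd cycle. -/
def IsThundercloudForest {V : Type} (H : SimpleGraph V) : Prop :=
  ∃ I, IsCloud H I ∧ ∀ (v : V) (c : H.Walk v v), c.IsCycle → Odd c.length →
    2 ≤ {x | x ∈ I ∧ x ∈ c.support}.ncard

end Pool.Agent.H279Z.CF
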