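import Pool.Agent.H279Z.CF.Defs
import Pool.Agent.H279Z.RG.Two

/-!
The example: `K_{3,4}` with classes `{0,1,2}` and `{3,4,5,6}`, an edge `7 8`, and the edges
`7 3`, `7 4`, `8 5`, `8 6`.
-/

namespace Pool.Agent.H279Z.CF

open Filter Topology Pool.Agent.H279Z.RG

/-- The edge list. -/
def EL : List (Fin 9 × Fin 9) :=
  [(0, 3), (0, 4), (0, 5), (0, 6), (1, 3), (1, 4), (1, 5), (1, 6), (2, 3), (2, 4), (2, 5), (2, 6),
    (3, 7), (4, 7), (5, 8), (6, 8), (7, 8)]

/-- The example graph. -/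
def HH : SimpleGraph (Fin 9) where
  Adj a b := (a, b) ∈ EL ∨ (b, a) ∈ EL
  symm := ⟨fun _ _ h => h.symm⟩
  loopless := ⟨by decide⟩

instance : DecidableRel HH.Adj := fun a b => inferInstanceAs (Decidable ((a, b) ∈ EL ∨ (b, a) ∈ EL))

lemma acyclic_of {V : Type*} (G : SimpleGraph V)
    (h : ∀ v w w', G.Adj v w → G.Adj v w' → w ≠ w' →
      (∀ x y, G.Adj w x → G.Adj w y → x = y) ∨ (∀ x y, G.Adj w' x → G.Adj w' y → x = y)) :
    G.IsAcyclic := by
  intro v c hc
  have key : ∀ u ∈ c.support, ∃ x y, x ≠ y ∧ G.Adj u x ∧ G.Adj u y ∧ x ∈ c.support ∧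
      y ∈ c.support := by
    intro u hu
    obtain ⟨x, y, hxy, hs⟩ := Set.ncard_eq_two.1 (hc.ncard_neighborSet_toSubgraph_eq_two hu)
    have hx : c.toSubgraph.Adj u x := by
      have : x ∈ c.toSubgraph.neighborSet u := by rw [hs]; simp
      exact this
    have hy : c.toSubgraph.Adj u y := by
      have : y ∈ c.toSubgraph.neighborSet u := by rw [hs]; simp
      exact this
    exact ⟨x, y, hxy, hx.adj_sub, hy.adj_sub, c.mem_verts_toSubgraph.1 hx.snd_mem,
      c.mem_verts_toSubgraph.1 hy.snd_mem⟩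
  obtain ⟨w, w', hne, h1, h2, h3, h4⟩ := key v c.start_mem_support
  rcases h v w w' h1 h2 hne with h5 | h5
  · obtain ⟨x, y, hxy, a, b, _⟩ := key w h3
    exact hxy (h5 x y a b)
  · obtain ⟨x, y, hxy, a, b, _⟩ := key w' h4
    exact hxy (h5 x y a b)

lemma no_four {V : Type*} {G : SimpleGraph V} {I : Set V} (h : (G.induce Iᶜ).IsAcyclic)
    (a b c d : V) (h1 : G.Adj a b) (h2 : G.Adj b c) (h3 : G.Adj c d) (h4 : G.Adj d a)
    (hac : a ≠ c) (hbd : b ≠ d) : a ∈ I ∨ b ∈ I ∨ c ∈ I ∨ d ∈ I := by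
  by_contra hcon
  simp only [not_or] at hcon
  obtain ⟨ha, hb, hc, hd⟩ := hcon
  let a' : (Iᶜ : Set V) := ⟨a, ha⟩
  let b' : (Iᶜ : Set V) := ⟨b, hb⟩
  let c' : (Iᶜ : Set V) := ⟨c, hc⟩
  let d' : (Iᶜ : Set V) := ⟨d, hd⟩
  have e1 : (G.induce Iᶜ).Adj a' b' := h1
  have e2 : (G.induce Iᶜ).Adj b' c' := h2
  have e3 : (G.induce Iᶜ).Adj c' d' := h3
  have e4 : (G.induce Iᶜ).Adj a' d' := h4.symm
  have := h.path_unique
    (⟨.cons e1 (.cons e2 .nil), by
      rw [SimpleGraph.Walk.isPath_def]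
      simp [a', b', c', h1.ne, h2.ne, hac]⟩ : (G.induce Iᶜ).Path a' c')
    ⟨.cons e4 (.cons e3.symm .nil), by
      rw [SimpleGraph.Walk.isPath_def]
      simp [a', c', d', h4.ne', h3.ne', hac]⟩
  have h5 := congrArg (fun q : (G.induce Iᶜ).Path a' c' => q.1.support) this
  simp [b', d'] at h5
  exact hbd h5

lemma two_le_deg {V : Type} [Finite V] {G : SimpleGraph V} {I : Set V} (v w w' : V)
    (h1 : G.Adj v w) (h2 : G.Adj v w') (hne : w ≠ w') (hw : w ∉ I) (hw' : w' ∉ I) :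
    2 ≤ degOutside G I v := by
  unfold degOutside
  rw [← Set.ncard_pair hne]
  refine Set.ncard_le_ncard ?_ (Set.toFinite _)
  rintro x (rfl | rfl)
  · exact ⟨hw, h1⟩
  · exact ⟨hw', h2⟩

lemma deg_eq_one {V : Type} {G : SimpleGraph V} {I : Set V} (v w : V)
    (h1 : G.Adj v w) (hw : w ∉ I) (h : ∀ x, G.Adj v x → x = w ∨ x ∈ I) :
    degOutside G I v = 1 := by
  unfold degOutside
  rw [Set.ncard_eq_one]
  refine ⟨w, Set.ext fun x => ⟨fun hx => (h x hx.2).resolve_right hx.1, ?_⟩⟩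
  rintro rfl; exact ⟨hw, h1⟩

lemma gnpProb_eq (n : ℕ) (q : ℝ) (P : SimpleGraph (Fin n) → Prop) :
    gnpProb n q P = Pr q (fun ω : Sym2 (Fin n) → Bool => P (gr ω)) := by
  classical
  unfold gnpProb
  exact @transfer n q P (fun _ => Classical.propDecidable _)

set_option synthInstance.maxSize 4096 in
lemma HH_cloud : IsCloudForest HH := by
  refine ⟨{v | v.val < 3}, ?_, ?_, ?_, ?_⟩
  · have : ∀ a b : Fin 9, a.val < 3 → b.val < 3 → ¬ HH.Adj a b := by decide
    intro a ha b hb _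
    exact this a b ha hb
  · refine acyclic_of _ ?_
    have : ∀ v w w' : Fin 9, ¬ v.val < 3 → ¬ w.val < 3 → ¬ w'.val < 3 → HH.Adj v w → HH.Adj v w' →
        w ≠ w' → (∀ x y : Fin 9, ¬ x.val < 3 → ¬ y.val < 3 → HH.Adj w x → HH.Adj w y → x = y) ∨
          (∀ x y : Fin 9, ¬ x.val < 3 → ¬ y.val < 3 → HH.Adj w' x → HH.Adj w' y → x = y) := by
      decide +kernel
    intro v w w' h1 h2 hne
    rcases this v.1 w.1 w'.1 v.2 w.2 w'.2 h1 h2 (fun e => hne (Subtype.ext e)) with h | h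
    · exact Or.inl fun x y a b => Subtype.ext (h x.1 y.1 x.2 y.2 a b)
    · exact Or.inr fun x y a b => Subtype.ext (h x.1 y.1 x.2 y.2 a b)
  · have : ∀ u v x y : Fin 9, u.val < 3 → HH.Adj u v → ¬ x.val < 3 → ¬ y.val < 3 → HH.Adj v x →
        HH.Adj v y → x = y := by decide +kernel
    intro u hu v _ huv
    unfold degOutside
    rw [Set.ncard_le_one_iff_subsingleton]
    intro x hx y hy
    exact this u v x y hu huv hx.1 hy.1 hx.2 hy.2
  · have : ∀ v w u u' : Fin 9, HH.Adj v w → ¬ v.val < 3 → ¬ w.val < 3 → u.val < 3 → u'.val < 3 →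
        HH.Adj u v → ¬ HH.Adj u' w := by decide +kernel
    rintro v hv w hw hvw _ _ ⟨⟨u, hu, h1⟩, u', hu', h2⟩
    exact this v w u u' hvw hv hw hu hu' h1 h2

lemma cloud_unique {I : Set (Fin 9)} (h : IsCloud HH I) : 3 ∉ I ∧ 7 ∉ I ∧ 8 ∉ I ∧ 5 ∉ I := by
  obtain ⟨h1, h2, h3, h4⟩ := h
  have ind : ∀ a b : Fin 9, HH.Adj a b → a ∈ I → b ∉ I := fun a b hab ha hb =>
    h1 ha hb hab.ne hab
  have lf : ∀ u v w w' : Fin 9, HH.Adj u v → HH.Adj v w → HH.Adj v w' → w ≠ w' → u ∈ I →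
      w ∈ I ∨ w' ∈ I := by
    intro u v w w' a1 a2 a3 a4 hu
    by_contra hcon
    rw [not_or] at hcon
    have b1 := h3 u hu v (ind u v a1 hu) a1
    have b2 := two_le_deg v w w' a2 a3 a4 hcon.1 hcon.2
    omega
  have f4 : ∀ l l' : Fin 9, HH.Adj 0 l → HH.Adj l 1 → HH.Adj 1 l' → HH.Adj l' 0 → l ≠ l' →
      0 ∈ I ∨ l ∈ I ∨ 1 ∈ I ∨ l' ∈ I := fun l l' a b c d e =>
    no_four h2 0 l 1 l' a b c d (by decide) e
  have all4 : ¬ (3 ∈ I ∧ 4 ∈ I ∧ 5 ∈ I ∧ 6 ∈ I) := by
    rintro ⟨a3, a4, a5, a6⟩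
    have n7 := ind 3 7 (by decide) a3
    have n8 := ind 5 8 (by decide) a5
    refine h4 7 n7 8 n8 (by decide) (deg_eq_one 7 8 (by decide) n8 ?_)
      (deg_eq_one 8 7 (by decide) n7 ?_) ⟨⟨3, a3, by decide⟩, 5, a5, by decide⟩
    · intro x hx
      have : ∀ x : Fin 9, HH.Adj 7 x → x = 8 ∨ x = 3 ∨ x = 4 := by decide
      rcases this x hx with rfl | rfl | rfl <;> simp [*]
    · intro x hx
      have : ∀ x : Fin 9, HH.Adj 8 x → x = 7 ∨ x = 5 ∨ x = 6 := by decide
      rcases this x hx with rfl | rfl | rfl <;> simp [*]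
  have i03 := ind 3 0 (by decide)
  have i13 := ind 3 1 (by decide)
  have i04 := ind 4 0 (by decide)
  have i14 := ind 4 1 (by decide)
  have i05 := ind 5 0 (by decide)
  have i15 := ind 5 1 (by decide)
  have i06 := ind 6 0 (by decide)
  have i16 := ind 6 1 (by decide)
  have i37 := ind 3 7 (by decide)
  have i47 := ind 4 7 (by decide)
  have i58 := ind 5 8 (by decide)
  have i68 := ind 6 8 (by decide)
  have i78 := ind 7 8 (by decide)
  have c34 := f4 3 4 (by decide) (by decide) (by decide) (by decide) (by decide)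
  have c35 := f4 3 5 (by decide) (by decide) (by decide) (by decide) (by decide)
  have c36 := f4 3 6 (by decide) (by decide) (by decide) (by decide) (by decide)
  have c45 := f4 4 5 (by decide) (by decide) (by decide) (by decide) (by decide)
  have c46 := f4 4 6 (by decide) (by decide) (by decide) (by decide) (by decide)
  have c56 := f4 5 6 (by decide) (by decide) (by decide) (by decide) (by decide)
  have l1 := lf 3 7 4 8 (by decide) (by decide) (by decide) (by decide)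
  have l2 := lf 4 7 3 8 (by decide) (by decide) (by decide) (by decide)
  have l3 := lf 5 8 6 7 (by decide) (by decide) (by decide) (by decide)
  have l4 := lf 6 8 5 7 (by decide) (by decide) (by decide) (by decide)
  have l5 := lf 7 8 5 6 (by decide) (by decide) (by decide) (by decide)
  have l6 := lf 8 7 3 4 (by decide) (by decide) (by decide) (by decide)
  clear h1 h2 h3 h4 ind lf f4
  by_cases a3 : (3 : Fin 9) ∈ I <;> by_cases a4 : (4 : Fin 9) ∈ I <;>
    by_cases a5 : (5 : Fin 9) ∈ I <;> by_cases a6 : (6 : Fin 9) ∈ I <;>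
    by_cases a7 : (7 : Fin 9) ∈ I <;> by_cases a8 : (8 : Fin 9) ∈ I <;> simp_all

/-- A five-cycle meeting the cloud once. -/
def c5 : HH.Walk 0 0 :=
  .cons (show HH.Adj 0 3 by decide) (.cons (show HH.Adj 3 7 by decide)
    (.cons (show HH.Adj 7 8 by decide) (.cons (show HH.Adj 8 5 by decide)
      (.cons (show HH.Adj 5 0 by decide) .nil))))

lemma c5_cycle : c5.IsCycle := by
  rw [SimpleGraph.Walk.isCycle_def, SimpleGraph.Walk.isTrail_def]
  refine ⟨by decide, by simp [c5], by decide⟩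

lemma HH_not_thunder : ¬ IsThundercloudForest HH := by
  rintro ⟨I, hI, h⟩
  obtain ⟨a3, a7, a8, a5⟩ := cloud_unique hI
  have h1 := h 0 c5 c5_cycle (by decide)
  have h2 : {x | x ∈ I ∧ x ∈ c5.support}.ncard ≤ ({0} : Set (Fin 9)).ncard := by
    refine Set.ncard_le_ncard ?_ (Set.toFinite _)
    rintro x ⟨hx, hs⟩
    simp only [c5, SimpleGraph.Walk.support_cons, SimpleGraph.Walk.support_nil, List.mem_cons,
      List.not_mem_nil, or_false] at hs
    rcases hs with rfl | rfl | rfl | rfl | rfl | rfl <;> simp_all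
  rw [Set.ncard_singleton] at h2
  omega

lemma HH_not_bip : ¬ HH.Colorable 2 := by
  rintro ⟨c⟩
  have h1 := c.valid (show HH.Adj 0 3 by decide)
  have h2 := c.valid (show HH.Adj 3 7 by decide)
  have h3 := c.valid (show HH.Adj 7 8 by decide)
  have h4 := c.valid (show HH.Adj 8 5 by decide)
  have h5 := c.valid (show HH.Adj 5 0 by decide)
  omega

lemma HH_edges : HH.edgeSet.ncard = 17 := by
  rw [← SimpleGraph.coe_edgeFinset, Set.ncard_coe_finset]
  decide +kernel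

lemma dens_aux : ∀ S : Finset (Fin 9), 3 ≤ S.card →
    7 * (EL.filter (fun e => e.1 ∈ S ∧ e.2 ∈ S)).length + 25 ≤ 16 * S.card := by
  decide +kernel

lemma HH_m2 : twoDensity HH = 16 / 7 := by
  refine IsGreatest.csSup_eq ⟨⟨⊤, ?_, ?_⟩, ?_⟩
  · simp [Set.ncard_univ]
  · rw [SimpleGraph.Subgraph.edgeSet_top, HH_edges]
    simp [Set.ncard_univ]; norm_num
  · rintro x ⟨F, hF, rfl⟩
    classical
    let S : Finset (Fin 9) := F.verts.toFinset
    have hS : F.verts.ncard = S.card := Set.ncard_eq_toFinset_card' _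
    have h1 : F.edgeSet ⊆ (((EL.filter (fun e => e.1 ∈ S ∧ e.2 ∈ S)).map
        (fun e => s(e.1, e.2))).toFinset : Set (Sym2 (Fin 9))) := by
      intro e he
      induction e using Sym2.ind with
      | _ a b =>
        have hab : F.Adj a b := he
        have ha : a ∈ S := Set.mem_toFinset.2 hab.fst_mem
        have hb : b ∈ S := Set.mem_toFinset.2 hab.snd_mem
        simp only [List.coe_toFinset, List.mem_map, List.mem_filter, Set.mem_ofPred_eq,
          decide_eq_true_eq]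
        rcases hab.adj_sub with h | h
        · exact ⟨(a, b), ⟨h, ha, hb⟩, rfl⟩
        · exact ⟨(b, a), ⟨h, hb, ha⟩, Sym2.eq_swap⟩
    have h2 : F.edgeSet.ncard ≤ (EL.filter (fun e => e.1 ∈ S ∧ e.2 ∈ S)).length := by
      refine (Set.ncard_le_ncard h1 (Set.toFinite _)).trans ?_
      rw [Set.ncard_coe_finset]
      exact (List.toFinset_card_le _).trans (by rw [List.length_map])
    have h3 := dens_aux S (hS ▸ hF)
    have h4 : 7 * F.edgeSet.ncard + 25 ≤ 16 * F.verts.ncard := by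
      rw [hS]
      refine le_trans ?_ h3
      have : 7 * F.edgeSet.ncard ≤ 7 * (EL.filter (fun e => e.1 ∈ S ∧ e.2 ∈ S)).length :=
        Nat.mul_le_mul_left _ h2
      convert Nat.add_le_add_right this 25
    have h5 : (7 : ℝ) * F.edgeSet.ncard + 25 ≤ 16 * F.verts.ncard := by exact_mod_cast h4
    have h6 : (3 : ℝ) ≤ F.verts.ncard := by exact_mod_cast hF
    rw [div_le_div_iff₀ (by linarith) (by norm_num)]
    linarith

lemma rpow_tendsto {a : ℝ} (ha : 0 < a) :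
    Tendsto (fun n : ℕ => (n : ℝ) ^ (-a)) atTop (𝓝 0) :=
  (tendsto_rpow_neg_atTop ha).comp tendsto_natCast_atTop_atTop

theorem threshold_ge {p : ℕ → ℝ} (hp : ∀ n, 0 < p n ∧ p n ≤ 1)
    (h1 : Tendsto (fun n : ℕ => (n : ℝ) ^ (-(7 / 16 : ℝ)) / p n) atTop (𝓝 0))
    (h2 : Tendsto (fun n : ℕ => p n / (n : ℝ) ^ (-(3 / 7 : ℝ))) atTop (𝓝 0)) :
    1 / 2 ≤ chromThreshold HH p := by
  have hlow := low_of_ratio (fun n => (hp n).1) h1
  have hη : (0 : ℝ) < 1 - 7 / 16 := by norm_num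
  have hp0 : Tendsto p atTop (𝓝 0) := by
    have := h2.mul (rpow_tendsto (show (0 : ℝ) < 3 / 7 by norm_num))
    rw [mul_zero] at this
    refine this.congr' ?_
    filter_upwards [eventually_gt_atTop 0] with n hn
    have : (0 : ℝ) < (n : ℝ) ^ (-(3 / 7 : ℝ)) := Real.rpow_pos_of_pos (by exact_mod_cast hn) _
    field_simp
  have hcop : Tendsto (fun n : ℕ => (n : ℝ) ^ 9 * p n ^ HH.edgeSet.ncard / (p n * n) ^ 3)
      atTop (𝓝 0) := by
    have := h2.pow 14
    rw [zero_pow (by norm_num)] at this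
    refine this.congr' ?_
    filter_upwards [eventually_gt_atTop 0] with n hn
    have hn' : (0 : ℝ) < n := by exact_mod_cast hn
    have hq := (hp n).1
    rw [HH_edges, div_pow, ← Real.rpow_natCast ((n : ℝ) ^ (-(3 / 7 : ℝ))), ← Real.rpow_mul hn'.le,
      show -(3 / 7 : ℝ) * ((14 : ℕ) : ℝ) = -((6 : ℕ) : ℝ) by norm_num, Real.rpow_neg hn'.le,
      Real.rpow_natCast]
    field_simp
  refine le_csInf ⟨4, by norm_num, 1, ?_⟩ ?_
  · refine (whp_four HH hp (growth hη hlow).1).congr fun n => ?_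
    rw [gnpProb_eq]
  · rintro d ⟨_, C, hC⟩
    by_contra hd
    refine not_whp_two HH HH_not_bip hp hp0 hη hlow hcop (not_le.1 hd) C (hC.congr fun n => ?_)
    rw [gnpProb_eq]

theorem main : ∃ H : SimpleGraph (Fin 9), IsCloudForest H ∧ ¬ IsThundercloudForest H ∧
    ∃ p : ℕ → ℝ, (∀ n, 0 < p n ∧ p n ≤ 1) ∧
      Tendsto (fun n : ℕ => max ((n : ℝ) ^ (-(1 / twoDensity H))) ((n : ℝ) ^ (-(1 / 2 : ℝ))) / p n)
        atTop (𝓝 0) ∧
      Tendsto p atTop (𝓝 0) ∧ 1 / 2 ≤ chromThreshold H p := by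
  let p : ℕ → ℝ := fun n => (max (n : ℝ) 1) ^ (-(13 / 30 : ℝ))
  have hp : ∀ n, 0 < p n ∧ p n ≤ 1 := fun n =>
    ⟨Real.rpow_pos_of_pos (lt_max_of_lt_right one_pos) _,
      Real.rpow_le_one_of_one_le_of_nonpos (le_max_right _ _) (by norm_num)⟩
  have hev : ∀ᶠ n : ℕ in atTop, (1 : ℝ) ≤ n ∧ p n = (n : ℝ) ^ (-(13 / 30 : ℝ)) := by
    filter_upwards [eventually_ge_atTop 1] with n hn
    have : (1 : ℝ) ≤ n := by exact_mod_cast hn
    exact ⟨this, by simp only [p, max_eq_left this]⟩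
  have h1 : Tendsto (fun n : ℕ => (n : ℝ) ^ (-(7 / 16 : ℝ)) / p n) atTop (𝓝 0) := by
    refine (rpow_tendsto (show (0 : ℝ) < 1 / 240 by norm_num)).congr' ?_
    filter_upwards [hev] with n ⟨hn, e⟩
    rw [e, ← Real.rpow_sub (by linarith)]; norm_num
  have h2 : Tendsto (fun n : ℕ => p n / (n : ℝ) ^ (-(3 / 7 : ℝ))) atTop (𝓝 0) := by
    refine (rpow_tendsto (show (0 : ℝ) < 1 / 210 by norm_num)).congr' ?_
    filter_upwards [hev] with n ⟨hn, e⟩
    rw [e, ← Real.rpow_sub (by linarith)]; norm_num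
  refine ⟨HH, HH_cloud, HH_not_thunder, p, hp, ?_, ?_, threshold_ge hp h1 h2⟩
  · refine h1.congr' ?_
    filter_upwards [hev] with n ⟨hn, _⟩
    rw [HH_m2, show (1 / (16 / 7) : ℝ) = 7 / 16 by norm_num,
      max_eq_left (Real.rpow_le_rpow_of_exponent_le hn (by norm_num))]
  · refine (rpow_tendsto (show (0 : ℝ) < 13 / 30 by norm_num)).congr' ?_
    filter_upwards [hev] with n ⟨_, e⟩
    exact e.symm

end Pool.Agent.H279Z.CF
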